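import Pool.Agent.helper87.FS.Spec

set_option autoImplicit false

namespace Pool.Agent.FS

open Polynomial Matrix Pool.Agent.helper42.NS

lemma MOS_deg {n : ℕ} (G : SimpleGraph (Fin n)) (R : Set (Fin n)) : (chp G R).natDegree = (Rᶜ).ncard := by
  classical
  unfold chp
  rw [Matrix.charpoly_natDegree_eq_dim, Set.ncard_eq_toFinset_card', Set.toFinset_card]

lemma MOS_inj {n : ℕ} (G H : SimpleGraph (Fin n)) (s s' v v' : Fin n) (hs : s ≠ s')
    (h : chp G {s, s'} = chp H {v, v'}) : v ≠ v' := by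
  rintro rfl
  have h1 := congrArg Polynomial.natDegree h
  rw [MOS_deg, MOS_deg, Set.pair_eq_singleton] at h1
  have h2 := Set.ncard_add_ncard_compl ({s, s'} : Set (Fin n))
  have h3 := Set.ncard_add_ncard_compl ({v} : Set (Fin n))
  rw [Set.ncard_pair hs] at h2
  rw [Set.ncard_singleton] at h3
  omega

lemma MOS_sing {n : ℕ} (M : Matrix (Fin n) (Fin n) ℤ) (s s' : Fin n) :
    (Pi.single s (1 : ℤ) : Fin n → ℤ) ⬝ᵥ M.mulVec (Pi.single s' 1) = M s s' := by
  simp

lemma MOS_PP {n : ℕ} (M : Matrix (Fin n) (Fin n) ℤ) (s s' : Fin n) :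
    PP M (Pi.single s 1) (Pi.single s' 1) = Matrix.adjugate (charmatrix M) s s' := by
  unfold PP
  have h : ∀ t : Fin n, (fun i => C ((Pi.single t (1 : ℤ) : Fin n → ℤ) i)) = (Pi.single t (1 : ℤ[X]) : Fin n → ℤ[X]) := by
    intro t
    funext i
    by_cases hi : i = t
    · subst hi; simp
    · simp [hi]
  rw [h s, h s']
  simp

lemma MOS_nonneg {n : ℕ} (M : Matrix (Fin n) (Fin n) ℤ) (hM : ∀ i j, 0 ≤ M i j) (l : ℕ) :
    ∀ i j, 0 ≤ (M ^ l) i j := by
  induction l with
  | zero =>
    intro i j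
    rw [pow_zero, Matrix.one_apply]
    split_ifs <;> norm_num
  | succ l ih =>
    intro i j
    rw [pow_succ, Matrix.mul_apply]
    exact Finset.sum_nonneg fun k _ => mul_nonneg (ih i k) (hM k j)

lemma MOS_adj_nonneg {n : ℕ} (G : SimpleGraph (Fin n)) : ∀ i j, 0 ≤ adj G i j := by
  intro i j
  unfold adj
  split_ifs <;> norm_num

theorem MOS (h1 : DEL_stmt) (h2 : DJI_stmt) : MOS_stmt := by
  intro n S G H u h0 hs s s' l
  have hch : (adj G).charpoly = (adj H).charpoly := by
    rw [← (h1 n G s).1, ← (h1 n H (u s)).1]; exact h0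
  have hdiag : ∀ t : S, Matrix.adjugate (charmatrix (adj G)) (t : Fin n) t =
      Matrix.adjugate (charmatrix (adj H)) (u t) (u t) := by
    intro t
    have h := hs t t
    rw [Set.pair_eq_singleton, Set.pair_eq_singleton] at h
    rw [← (h1 n G t).2, ← (h1 n H (u t)).2]
    exact h
  have hmom : ∀ e : ℤ, Matrix.adjugate (charmatrix (adj G)) (s : Fin n) s' =
      C e * Matrix.adjugate (charmatrix (adj H)) (u s) (u s') →
      (adj G ^ l) s s' = e * (adj H ^ l) (u s) (u s') := by
    intro e he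
    have h := T_MO2 n (adj G) (adj H) (Pi.single (s : Fin n) 1) (Pi.single (s' : Fin n) 1) (Pi.single (u s) 1) (Pi.single (u s') 1) e hch
      (by rw [MOS_PP, MOS_PP]; exact he) l
    rw [MOS_sing, MOS_sing] at h
    exact h
  by_cases hss : s = s'
  · subst hss
    have h := hmom 1 (by rw [hdiag s]; simp)
    rw [h, one_mul]
  · have hne : (s : Fin n) ≠ s' := fun h => hss (Subtype.ext h)
    have hne' : u s ≠ u s' := MOS_inj G H s s' (u s) (u s') hne (hs s s')
    have e1 := h2 n G s s' hne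
    have e2 := h2 n H (u s) (u s') hne'
    rw [hch, hs s s', e2, hdiag s, hdiag s'] at e1
    have hsq : Matrix.adjugate (charmatrix (adj G)) (s : Fin n) s' ^ 2 = Matrix.adjugate (charmatrix (adj H)) (u s) (u s') ^ 2 := by
      linear_combination e1
    rcases sq_eq_sq_iff_eq_or_eq_neg.1 hsq with h | h
    · have h' := hmom 1 (by rw [h]; simp)
      rw [h', one_mul]
    · have h' := hmom (-1) (by rw [h]; simp)
      have p1 := MOS_nonneg (adj G) (MOS_adj_nonneg G) l s s'
      have p2 := MOS_nonneg (adj H) (MOS_adj_nonneg H) l (u s) (u s')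
      omega

end Pool.Agent.FS
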